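import Pool.Agent.Helper24.S7.Defs
import Pool.Agent.Helper24.MA.Asm.CaseA

/-!
# Minimal noncentral normal subgroups of a core group (module S7-04)

`exists_minK`: if all normal subgroups were central then `G = ⊤` is abelian; a Sylow subgroup `P` is then normal, so `P = ⊥` (`opcore`), contradicting `dvd_card`. So there is a noncentral normal subgroup; choose one of minimal cardinality: `K`. Every normal subgroup of `G`
properly contained in `K` is central. If `p` does not divide `|K|`: `caseA` with `M = K` (`supplement`). Suppose `p ∣ |K|`. `⁅K, K⁆` is normal in `G` and contained in `K`. If `⁅K, K⁆ ≠ K` it is central, so `K` is nilpotent of class at most 2, so its Sylow `p`-subgroup `Q` is normal in `K`, hence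
characteristic in `K` and normal in `G` (as `K` is normal): it is a nontrivial normal `p`-subgroup of `G`, contradicting `opcore`. (For the nilpotency: `⁅⊤, ⊤⁆ ≤ center` in the group `K`, `Group.isNilpotent...`, `isNilpotent_of_finite_tfae`; or directly: for the Sylow subgroup `Q` of `K` the group `Q ⊔ center K` is normal in `K` because it contains the commutators, and
`Q` is characteristic in `Q Z(K)`, `Z(K)` being central.)
-/

open scoped Pointwise IsMulCommutative

namespace Pool.Agent.Helper24.S7

open Pool.Agent.Helper42.INC Pool.Agent.Helper7.MK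

theorem exists_minK {p : ℕ} [Fact p.Prime] {G : Type} [Group G] [Finite G] (h : Core p G)
    (hn : ¬ McKayCongr p G) : ∃ K : Subgroup G, K.Normal ∧ ⁅K, K⁆ = K ∧ K ≠ ⊥ ∧
      (∀ N : Subgroup G, N.Normal → N ≤ K → N ≠ K → N ≤ Subgroup.center G) ∧
      p ∣ Nat.card K := by
  have hex : ∃ N : Subgroup G, N.Normal ∧ ¬ N ≤ Subgroup.center G := by
    refine ⟨⊤, inferInstance, fun hle => h.coprime ?_⟩
    have h1 : Subgroup.center G = ⊤ := top_le_iff.1 hle
    rw [h1, Subgroup.card_top]
    exact h.dvd_card
  obtain ⟨K, hK⟩ := exists_minimal_of_wellFoundedLT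
    (fun N : Subgroup G => N.Normal ∧ ¬ N ≤ Subgroup.center G) hex
  have hKn : K.Normal := hK.prop.1
  have hKc : ¬ K ≤ Subgroup.center G := hK.prop.2
  have hmin : ∀ N : Subgroup G, N.Normal → N ≤ K → N ≠ K → N ≤ Subgroup.center G := by
    intro N hN hNK hne
    by_contra hc
    exact hne (le_antisymm hNK (hK.le_of_le ⟨hN, hc⟩ hNK))
  have hp : p ∣ Nat.card K := by
    by_contra hc
    obtain ⟨P⟩ : Nonempty (Sylow p G) := inferInstance
    exact hn (Pool.Agent.Helper24.MA.caseA p G K hc P (h.supplement K hKn hKc P))
  refine ⟨K, hKn, ?_, ?_, hmin, hp⟩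
  · by_contra hne
    have hcom : ⁅K, K⁆ ≤ Subgroup.center G :=
      hmin ⁅K, K⁆ (Subgroup.commutator_normal K K) (Subgroup.commutator_le_left K K) hne
    have hcK : _root_.commutator K ≤ Subgroup.center K := by
      intro x hx
      have h1 : (x : G) ∈ ⁅K, K⁆ := by
        rw [← Subgroup.map_subtype_commutator K]
        exact ⟨x, hx, rfl⟩
      have h2 := hcom h1
      rw [Subgroup.mem_center_iff] at h2 ⊢
      intro y
      exact Subtype.ext (h2 y)
    have hnil : Group.IsNilpotent K := by
      apply Subgroup.isNilpotent_of_ker_le_center (Abelianization.of (G := K))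
      rw [Abelianization.ker_of]
      exact hcK
    obtain ⟨Q⟩ : Nonempty (Sylow p K) := inferInstance
    have hQn : (Q : Subgroup K).Normal := by
      have h1 := (Group.isNilpotent_of_finite_tfae (G := K)).out 0 3
      exact h1.1 hnil p inferInstance Q
    have hQc : (Q : Subgroup K).Characteristic := Q.characteristic_of_normal hQn
    have hQG : ((Q : Subgroup K).map K.subtype).Normal :=
      ConjAct.normal_of_characteristic_of_normal
    have h2 := h.opcore _ hQG (Q.isPGroup'.map K.subtype)
    have h3 : (Q : Subgroup K) = ⊥ :=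
      (Subgroup.map_eq_bot_iff_of_injective _ K.subtype_injective).1 h2
    have h4 : p ∣ Nat.card Q := Q.dvd_card_of_dvd_card hp
    have h5 : Nat.card Q = 1 := by
      change Nat.card (Q : Subgroup K) = 1
      rw [h3]
      exact Subgroup.card_bot
    rw [h5] at h4
    exact (Fact.out : p.Prime).one_lt.ne' (Nat.dvd_one.1 h4)
  · rintro rfl
    exact hKc bot_le

end Pool.Agent.Helper24.S7
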