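import Pool.Agent.Helper24.S7.Cases

/-!
# A minimal counterexample in a class is a core group (module S7-03)

Copy `one_step` from Pool/Agent/Results/MP_5ecade_al/MinimalReduction.lean with `case_frattiniC`, `case_cyclicC`, `case_coprimeC` (do NOT import the Results file). The last field (centralizer) of the old `Core` is not needed.
`smaller_sub`: for a proper subgroup `L` of `G`, `Smaller L G` (see `hHind`, `hHlt` in the proof of `case_frattini`).
`induct`: `Smaller` is well founded: double strong induction on `(Subgroup.center G).index` and `Nat.card G` as in `result` of that file.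
-/

open scoped Pointwise IsMulCommutative

namespace Pool.Agent.Helper24.S7

open Pool.Agent.Helper42.INC Pool.Agent.Helper7.MK

variable {CC : ∀ (G : Type) [Group G], Prop} {p : ℕ} [Fact p.Prime]

theorem one_stepC (hCC : CClass CC) (G : Type) [Group G] [Finite G] (hG : CC G)
    (ih : ∀ (X : Type) [Group X] [Finite X], CC X → Smaller X G → McKayCongr p X)
    (hn : ¬ McKayCongr p G) : Core p G := by
  by_cases h1 : ∃ P : Sylow p G, (P : Subgroup G).Normal
  · obtain ⟨P, hP⟩ := h1
    exact absurd (mcKay_of_normal P hP) hn
  by_cases h2 : ∀ M : Subgroup G, M.Normal → ¬ M ≤ Subgroup.center G → ∀ P : Sylow p G,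
      M ⊔ Subgroup.normalizer (P : Set G) = ⊤
  swap
  · push Not at h2
    obtain ⟨M, hM, hMc, P, hP⟩ := h2
    exact absurd (case_frattiniC hCC hG ih M hM hMc P hP) hn
  by_cases h3 : IsCyclic (Subgroup.center G)
  swap
  · exact absurd (case_cyclicC hCC hG ih h3) hn
  by_cases h4 : p ∣ Nat.card (Subgroup.center G)
  · exact absurd (case_coprimeC hCC hG ih h4) hn
  obtain ⟨P⟩ : Nonempty (Sylow p G) := inferInstance
  have hP : Subgroup.normalizer (P : Set G) ≠ ⊤ := by
    intro hP
    exact h1 ⟨P, Subgroup.normalizer_eq_top_iff.1 hP⟩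
  have hop : ∀ K : Subgroup G, K.Normal → IsPGroup p K → K = ⊥ := by
    intro K hK hKp
    have hKc : K ≤ Subgroup.center G := by
      by_contra hKc
      exact hP (normal_p_normalizer K hK hKp P (h2 K hK hKc P))
    by_contra hne
    have hd : p ∣ Nat.card K := by
      obtain ⟨n, hn⟩ := IsPGroup.iff_card.1 hKp
      have h5 := (Subgroup.one_lt_card_iff_ne_bot K).2 hne
      rcases n with _ | n
      · rw [hn] at h5; simp at h5
      · rw [hn]; exact dvd_pow_self p (Nat.succ_ne_zero n)
    exact h4 (hd.trans (Subgroup.card_dvd_of_le hKc))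
  by_cases h5 : ∀ A : Subgroup G, A.Normal → IsMulCommutative A → A ≤ Subgroup.center G
  swap
  · push Not at h5
    obtain ⟨A, hA, hAc, hAn⟩ := h5
    have hAp : ¬ p ∣ Nat.card A := by
      intro hd
      obtain ⟨a, ha⟩ := exists_prime_orderOf_dvd_card' p hd
      set K : Subgroup G := (powMonoidHom p : A →* A).ker.map A.subtype with hK
      have hKn : K.Normal := by
        refine ⟨?_⟩
        rintro _ ⟨b, hb, rfl⟩ g
        refine ⟨⟨g * b * g⁻¹, hA.conj_mem b b.2 g⟩, ?_, rfl⟩
        change (_ : A) ^ p = 1
        apply Subtype.ext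
        change (g * (b : G) * g⁻¹) ^ p = 1
        have hb' : (b : G) ^ p = 1 := congrArg Subtype.val (show b ^ p = 1 from hb)
        rw [conj_pow, hb', mul_one, mul_inv_cancel]
      have hKp : IsPGroup p K := by
        rintro ⟨_, b, hb, rfl⟩
        refine ⟨1, ?_⟩
        apply Subtype.ext
        have hb' : (b : G) ^ p = 1 := congrArg Subtype.val (show b ^ p = 1 from hb)
        change (b : G) ^ p ^ 1 = 1
        rw [pow_one, hb']
      have hbot := hop K hKn hKp
      have haK : (a : G) ∈ K := by
        refine ⟨a, ?_, rfl⟩
        change a ^ p = 1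
        rw [← ha, pow_orderOf_eq_one]
      rw [hbot, Subgroup.mem_bot] at haK
      have ha1 : a = 1 := Subtype.ext haK
      rw [ha1, orderOf_one] at ha
      exact (Fact.out : p.Prime).one_lt.ne ha
    exact absurd (case_abelian_coprime A hA hAp P (h2 A hA hAn P)) hn
  refine ⟨?_, hop, h3, h4, h5, h2⟩
  · by_contra hd
    apply hP
    have hbot : (P : Subgroup G) = ⊥ := by
      rw [← Subgroup.card_eq_one]
      obtain ⟨n, hn⟩ := IsPGroup.iff_card.1 P.isPGroup'
      rcases n with _ | n
      · rw [hn, pow_zero]
      · exfalso
        apply hd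
        refine dvd_trans ?_ (Subgroup.card_subgroup_dvd_card (P : Subgroup G))
        rw [hn]; exact dvd_pow_self p (Nat.succ_ne_zero n)
    refine Subgroup.normalizer_eq_top_iff.2 ?_
    rw [hbot]; infer_instance

theorem smaller_sub {G : Type} [Group G] [Finite G] (L : Subgroup G) (hL : L ≠ ⊤) :
    Smaller L G := by
  right
  constructor
  · have h1 : (Subgroup.center G).subgroupOf L ≤ Subgroup.center L := by
      intro z hz
      rw [Subgroup.mem_center_iff]
      intro x
      apply Subtype.ext
      exact Subgroup.mem_center_iff.1 (Subgroup.mem_subgroupOf.1 hz) x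
    have h2 : (Subgroup.center L).index ∣ (Subgroup.center G).index :=
      (Subgroup.index_dvd_of_le h1).trans
        (Subgroup.relIndex_dvd_index_of_normal (Subgroup.center G) L)
    exact Nat.le_of_dvd (Nat.pos_of_ne_zero Subgroup.index_ne_zero_of_finite) h2
  · refine lt_of_le_of_ne (Subgroup.card_le_card_group L) (fun he => hL ?_)
    exact Subgroup.eq_top_of_card_eq L he

theorem induct (Q : ∀ (G : Type) [Group G], Prop)
    (h : ∀ (G : Type) [Group G] [Finite G],
      (∀ (X : Type) [Group X] [Finite X], Smaller X G → Q X) → Q G)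
    (G : Type) [Group G] [Finite G] : Q G := by
  have key : ∀ n : ℕ, ∀ m : ℕ, ∀ (G : Type) [Group G] [Finite G],
      (Subgroup.center G).index = n → Nat.card G = m → Q G := by
    intro n
    induction n using Nat.strong_induction_on with
    | _ n ihn =>
      intro m
      induction m using Nat.strong_induction_on with
      | _ m ihm =>
        intro G _ _ hn hm
        refine h G ?_
        intro X _ _ hX
        unfold Smaller at hX
        rw [hn, hm] at hX
        rcases hX with hX | ⟨hX1, hX2⟩
        · exact ihn _ hX _ X rfl rfl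
        · rcases hX1.lt_or_eq with hlt | heq
          · exact ihn _ hlt _ X rfl rfl
          · exact ihm _ hX2 X heq rfl
  exact key _ _ G rfl rfl

end Pool.Agent.Helper24.S7
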