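import Pool.Agent.Helper24.S7.Inv
import Pool.Agent.Helper24.S7.OneStep
import Pool.Agent.Helper24.S7.MinK
import Pool.Agent.Helper7.MK.Final3

/-!
# The final theorem (module S7-05)

`hII` is theorem II (sections 3, 4, 5). PROOF. `induct` with `Q G := InCC p G → McKayCongr p G`. Let `G` be in the class, suppose `McKayCongr p G` is false; `Core p G` by `one_stepC` with the class `InCC p` (`inCC_class`). `exists_minK` gives `K`. `good_comp`: every subgroup `S` of `G`, `S ≤ K`, perfect, `S/Z(S)` simple, `p` not dividing `|Z(S)|`, `p` dividing `|S|` is `Good p`: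
if `p ^ 2` does not divide `|S|`, `hII`. If it does, then `p ^ 2` divides `|S/Z(S)|`, `S/Z(S)` is simple and involved in `G` (`involved_self_quot`), not abelian (`S` is perfect: if `S/Z(S)` is abelian then `S = ⁅S, S⁆ ≤ Z(S)` and `S` is abelian and perfect, so trivial, contradicting `p ∣ |S|`), so `PGood p (S/Z(S))` by hypothesis, and `Good p S` (with `⁅⊤, ⊤⁆ = ⊤` in the group `S`
from `⁅S, S⁆ = S`: `Subgroup.map_commutator`). `stage3` gives `L ≠ ⊤` with `N_G(P) ≤ L`, `cnt p G s = cnt p L s`. `L` is in the class (`up` for the inclusion) and smaller (`smaller_sub`), so `McKayCongr p L`, hence `cnt p L s = cnt p (normalizer of P.subtype in L) s = cnt p (normalizer P) s` (`mcKay_iff`, `normSubEquiv`, `cnt_congr`), so `McKayCongr p G` (`mcKay_iff`). Contradiction.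
-/

open scoped Pointwise IsMulCommutative

namespace Pool.Agent.Helper24.S7

open Pool.Agent.Helper42.INC Pool.Agent.Helper7.MK

theorem good_comp {p : ℕ} [Fact p.Prime]
    (hII : ∀ (K : Type) [Group K] [Finite K], ⁅(⊤ : Subgroup K), (⊤ : Subgroup K)⁆ = ⊤ →
      p ∣ Nat.card K → ¬ p ^ 2 ∣ Nat.card K → ¬ p ∣ Nat.card (Subgroup.center K) → Good p K)
    {G : Type} [Group G] [Finite G] (hG : InCC p G) (S : Subgroup G) (h1 : ⁅S, S⁆ = S)
    (h2 : IsSimpleGroup (S ⧸ Subgroup.center S)) (h3 : ¬ p ∣ Nat.card (Subgroup.center S))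
    (h4 : p ∣ Nat.card S) : Good p S := by
  have hperf : _root_.commutator S = ⊤ := by
    apply Subgroup.map_injective S.subtype_injective
    rw [Subgroup.map_subtype_commutator S, h1, ← MonoidHom.range_eq_map, Subgroup.range_subtype]
  by_cases hp2 : p ^ 2 ∣ Nat.card S
  · have hab : ¬ ∀ a b : S ⧸ Subgroup.center S, a * b = b * a := by
      intro hc
      have hle : _root_.commutator S ≤ Subgroup.center S := by
        rw [_root_.commutator_def, Subgroup.commutator_le]
        intro a _ b _
        rw [← QuotientGroup.eq_one_iff, commutatorElement_def]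
        change (a : S ⧸ Subgroup.center S) * b * (a : S ⧸ Subgroup.center S)⁻¹ * (b : S ⧸ Subgroup.center S)⁻¹ = 1
        rw [hc (a : S ⧸ Subgroup.center S) b]
        group
      rw [hperf, top_le_iff] at hle
      apply h3
      rw [hle, Subgroup.card_top]
      exact h4
    have hdvd : p ^ 2 ∣ Nat.card (S ⧸ Subgroup.center S) := by
      have h5 := Subgroup.card_eq_card_quotient_mul_card_subgroup (Subgroup.center S)
      rw [h5] at hp2
      have h6 : Nat.Coprime (p ^ 2) (Nat.card (Subgroup.center S)) :=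
        Nat.Coprime.pow_left 2 (((Fact.out : p.Prime).coprime_iff_not_dvd).2 h3)
      exact h6.dvd_of_dvd_mul_right hp2
    exact hG (S ⧸ Subgroup.center S) h2 hab (involved_self_quot S (Subgroup.center S)) hdvd S hperf
      ⟨MulEquiv.refl _⟩ h3
  · exact hII S hperf h4 hp2 h3

theorem final_of {p : ℕ} [Fact p.Prime]
    (hII : ∀ (K : Type) [Group K] [Finite K], ⁅(⊤ : Subgroup K), (⊤ : Subgroup K)⁆ = ⊤ →
      p ∣ Nat.card K → ¬ p ^ 2 ∣ Nat.card K → ¬ p ∣ Nat.card (Subgroup.center K) → Good p K)
    (G : Type) [Group G] [Finite G] (hG : InCC p G) : McKayCongr p G := by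
  refine induct (fun G [Group G] => InCC p G → McKayCongr p G) ?_ G hG
  intro G _ _ ih hG
  by_contra hn
  have hcore : Core p G := one_stepC (inCC_class p) G hG (fun X _ _ hX hs => ih X hs hX) hn
  obtain ⟨K, hKn, hperf, hne, hmin, hpK⟩ := exists_minK hcore hn
  obtain ⟨P⟩ : Nonempty (Sylow p G) := inferInstance
  haveI := hKn
  obtain ⟨L, hL, hNL, hcnt⟩ := stage3 K hperf hne hmin hcore.coprime hpK
    (fun S _ h1 h2 h3 h4 => good_comp hII hG S h1 h2 h3 h4) P
  have hLc : InCC p L := by
    refine (inCC_class p).up L G L.subtype ?_ hG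
    rw [L.ker_subtype]
    exact bot_le
  have hLM : McKayCongr p L := ih L (smaller_sub L hL) hLc
  have hPL : (P : Subgroup G) ≤ L := Subgroup.le_normalizer.trans hNL
  apply hn
  rw [mcKay_iff P]
  intro s hs
  rw [hcnt s hs, (mcKay_iff (P.subtype hPL)).1 hLM s hs]
  exact cnt_congr (normSubEquiv P L hPL hNL) s

end Pool.Agent.Helper24.S7
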