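import Pool.Agent.Helper24.S7.Defs

/-!
# The reduction cases relative to a class (module S7-02)

Copy the proofs of `case_frattini`, `case_cyclic` (Helper42/INC/Red.lean), `case_coprime` (Helper42/INC/Red2.lean); every application of `ih` to a group `X` now also needs `CC X`:
* `G ⧸ K` : `down` for `QuotientGroup.mk'`;
* a subgroup `H` of `G`: `up` for `H.subtype` (injective, kernel `⊥`);
* `TStar (NP.ofNormal M') θ.rep`: `up` for `starMap M' θ.rep : TStar → G ⧸ M'` (kernel = range of `scStar`, central: `starMap_ker`, `scStar_central`) from `CC (G ⧸ M')` (`down`); its quotient: `down`.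
(Proved by helper85.)
-/

open scoped Pointwise IsMulCommutative

namespace Pool.Agent.Helper24.S7

open Pool.Agent.Helper42.INC Pool.Agent.Helper7.MK

variable {CC : ∀ (G : Type) [Group G], Prop} {p : ℕ} [Fact p.Prime] {G : Type} [Group G] [Finite G]

theorem case_frattiniC (hCC : CClass CC) (hG : CC G)
    (ih : ∀ (X : Type) [Group X] [Finite X], CC X → Smaller X G → McKayCongr p X)
    (M : Subgroup G) (hM : M.Normal) (hMc : ¬ M ≤ Subgroup.center G) (P : Sylow p G)
    (hP : M ⊔ Subgroup.normalizer (P : Set G) ≠ ⊤) : McKayCongr p G := by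
  set M' := M ⊔ Subgroup.center G with hM'
  have hM'n : M'.Normal := inferInstance
  have hlt : Subgroup.center G < M' := by
    refine lt_of_le_of_ne le_sup_right (fun h => hMc ?_)
    rw [h]
    exact le_sup_left
  have hidx : M'.index < (Subgroup.center G).index := Subgroup.index_strictAnti hlt
  have hH : M' ⊔ Subgroup.normalizer (P : Set G) = M ⊔ Subgroup.normalizer (P : Set G) := by
    rw [hM', sup_assoc, sup_eq_right.2 (center_le_normalizer P)]
  have hGM : CC (G ⧸ M') := hCC.down G (G ⧸ M') (QuotientGroup.mk' M') (QuotientGroup.mk'_surjective M') hG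
  apply mcKay_of_cnt P
  intro s hs
  have hPN : (P : Subgroup G) ≤ Subgroup.normalizer (P : Set G) :=
    Subgroup.le_normalizer (H := (P : Subgroup G))
  have hstep := step M' P (by
    intro θ hθ ν
    have hnor : (ν.ker.map (scStar (NP.ofNormal M') θ.rep)).Normal := by
      refine ⟨fun a ha g => ?_⟩
      have h2 : a ∈ Subgroup.center _ := by
        obtain ⟨c, _, rfl⟩ := ha
        exact scStar_central _ _ c
      have h3 : g * a * g⁻¹ = a := by
        rw [Subgroup.mem_center_iff.1 h2 g, mul_assoc, mul_inv_cancel, mul_one]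
      rw [h3]; exact ha
    refine ⟨TStar (NP.ofNormal M') θ.rep ⧸ ν.ker.map (scStar (NP.ofNormal M') θ.rep),
      inferInstance, inferInstance, QuotientGroup.mk' _, QuotientGroup.mk'_surjective _,
      QuotientGroup.ker_mk' _, ?_⟩
    have h1 : (starMap M' θ.rep).ker ≤ Subgroup.center _ := by
      rw [starMap_ker]
      rintro _ ⟨c, rfl⟩
      exact scStar_central _ _ c
    have hX : CC (TStar (NP.ofNormal M') θ.rep ⧸ ν.ker.map (scStar (NP.ofNormal M') θ.rep)) :=
      hCC.down _ _ (QuotientGroup.mk' _) (QuotientGroup.mk'_surjective _)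
        (hCC.up _ _ (starMap M' θ.rep) h1 hGM)
    apply ih _ hX
    left
    refine lt_of_le_of_lt ?_ hidx
    have h2 := index_center_le_of_surj (QuotientGroup.mk'
      (ν.ker.map (scStar (NP.ofNormal M') θ.rep))) (QuotientGroup.mk'_surjective _) _ h1
    refine h2.trans ?_
    rw [Subgroup.index_ker]
    exact Subgroup.card_le_card_group _) s hs
  rw [hstep]
  set H := M' ⊔ Subgroup.normalizer (P : Set G) with hHdef
  have hNH : Subgroup.normalizer (P : Set G) ≤ H := le_sup_right
  have hPH : (P : Subgroup G) ≤ H := hPN.trans hNH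
  have hHlt : Nat.card H < Nat.card G := by
    refine lt_of_le_of_ne (Subgroup.card_le_card_group H) (fun he => hP ?_)
    rw [← hH]
    exact Subgroup.eq_top_of_card_eq H he
  have hHind : (Subgroup.center H).index ≤ (Subgroup.center G).index := by
    have h1 : (Subgroup.center G).subgroupOf H ≤ Subgroup.center H := by
      intro z hz
      rw [Subgroup.mem_center_iff]
      intro x
      apply Subtype.ext
      exact Subgroup.mem_center_iff.1 (Subgroup.mem_subgroupOf.1 hz) x
    have h2 : (Subgroup.center H).index ∣ (Subgroup.center G).index :=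
      (Subgroup.index_dvd_of_le h1).trans
        (Subgroup.relIndex_dvd_index_of_normal (Subgroup.center G) H)
    exact Nat.le_of_dvd (Nat.pos_of_ne_zero Subgroup.index_ne_zero_of_finite) h2
  have hHC : CC H := hCC.up H G H.subtype (by rw [Subgroup.ker_subtype]; exact bot_le) hG
  have hMcK := ih H hHC (Or.inr ⟨hHind, hHlt⟩)
  rw [(mcKay_iff (P.subtype hPH)).1 hMcK s hs]
  exact cnt_congr (normSubEquiv P H hPH hNH) s

theorem case_cyclicC (hCC : CClass CC) (hG : CC G)
    (ih : ∀ (X : Type) [Group X] [Finite X], CC X → Smaller X G → McKayCongr p X)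
    (hc : ¬ IsCyclic (Subgroup.center G)) : McKayCongr p G := by
  obtain ⟨P⟩ : Nonempty (Sylow p G) := inferInstance
  have hζ : ∀ c : Subgroup.center G, (Subgroup.center G).subtype c ∈ Subgroup.center G :=
    fun c => c.2
  apply abs_of_rel (C := Subgroup.center G) P (Subgroup.center G).subtype hζ
  intro s hs
  apply rel_of_abs (C := Subgroup.center G) P (Subgroup.center G).subtype hζ _ s hs
  intro ν
  have hnor : (ν.ker.map (Subgroup.center G).subtype).Normal := by
    refine ⟨fun a ha g => ?_⟩
    have h2 : a ∈ Subgroup.center G := by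
      obtain ⟨c, _, rfl⟩ := ha
      exact c.2
    have h3 : g * a * g⁻¹ = a := by
      rw [Subgroup.mem_center_iff.1 h2 g, mul_assoc, mul_inv_cancel, mul_one]
    rw [h3]; exact ha
  refine ⟨G ⧸ ν.ker.map (Subgroup.center G).subtype, inferInstance, inferInstance,
    QuotientGroup.mk' _, QuotientGroup.mk'_surjective _, QuotientGroup.ker_mk' _, ?_⟩
  apply ih _ (hCC.down _ _ (QuotientGroup.mk' _) (QuotientGroup.mk'_surjective _) hG)
  right
  refine ⟨index_center_le_of_surj _ (QuotientGroup.mk'_surjective _) _ le_rfl, ?_⟩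
  have hker : ν.ker ≠ ⊥ := by
    intro h
    apply hc
    have hinj : Function.Injective ν := (MonoidHom.ker_eq_bot_iff ν).1 h
    have hinj' : Function.Injective ((Units.coeHom ℂ).comp ν) :=
      Units.val_injective.comp hinj
    exact isCyclic_of_subgroup_isDomain ((Units.coeHom ℂ).comp ν) hinj'
  have hmap : ν.ker.map (Subgroup.center G).subtype ≠ ⊥ := by
    intro h
    exact hker ((Subgroup.map_eq_bot_iff_of_injective _ Subtype.val_injective).1 h)
  exact card_quotient_lt _ hmap

theorem case_coprimeC (hCC : CClass CC) (hG : CC G)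
    (ih : ∀ (X : Type) [Group X] [Finite X], CC X → Smaller X G → McKayCongr p X)
    (hc : p ∣ Nat.card (Subgroup.center G)) : McKayCongr p G := by
  obtain ⟨z, hz⟩ := exists_prime_orderOf_dvd_card' p hc
  set C : Subgroup (Subgroup.center G) := Subgroup.zpowers z with hCdef
  have hC : ∀ c : C, c ^ p = 1 := by
    rintro ⟨_, i, rfl⟩
    apply Subtype.ext
    change (z ^ i) ^ p = 1
    rw [← zpow_natCast, ← zpow_mul, mul_comm, zpow_mul, zpow_natCast, ← hz, pow_orderOf_eq_one,
      one_zpow]
  set ζ : C →* G := (Subgroup.center G).subtype.comp C.subtype with hζdef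
  have hζ : ∀ c, ζ c ∈ Subgroup.center G := fun c => c.1.2
  have hnor : ζ.range.Normal := by
    refine ⟨fun a ha g => ?_⟩
    have h2 : a ∈ Subgroup.center G := by
      obtain ⟨c, rfl⟩ := ha
      exact hζ c
    have h3 : g * a * g⁻¹ = a := by
      rw [Subgroup.mem_center_iff.1 h2 g, mul_assoc, mul_inv_cancel, mul_one]
    rw [h3]; exact ha
  refine mcKay_of_quot_p hC ζ hζ (QuotientGroup.mk' ζ.range) (QuotientGroup.mk'_surjective _)
    (QuotientGroup.ker_mk' _) ?_
  apply ih _ (hCC.down _ _ (QuotientGroup.mk' _) (QuotientGroup.mk'_surjective _) hG)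
  right
  refine ⟨index_center_le_of_surj _ (QuotientGroup.mk'_surjective _) _ le_rfl, ?_⟩
  apply card_quotient_lt
  intro h
  have h1 : ζ ⟨z, Subgroup.mem_zpowers z⟩ ∈ (⊥ : Subgroup G) := by
    rw [← h]; exact ⟨_, rfl⟩
  rw [Subgroup.mem_bot] at h1
  have h2 : z = 1 := Subtype.ext h1
  rw [h2, orderOf_one] at hz
  exact (Fact.out : p.Prime).one_lt.ne hz

end Pool.Agent.Helper24.S7
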