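import Pool.Agent.Helper42.INC.Red3
import Pool.Agent.Helper7.MK.Defs

/-!
# Section 7: the class of groups, definitions
-/

open scoped Pointwise IsMulCommutative

namespace Pool.Agent.Helper24.S7

open Pool.Agent.Helper42.INC Pool.Agent.Helper7.MK

/-- `S` is involved in `G`: it is isomorphic to a section of `G` -/
def Involved (S G : Type) [Group S] [Group G] : Prop :=
  ∃ (H : Subgroup G) (L : Subgroup H) (_ : L.Normal), Nonempty ((H ⧸ L) ≃* S)

/-- the simple group `S` is `p`-good: all finite perfect groups `K` with `K / Z(K)` isomorphic to `S`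
and `p` not dividing `|Z(K)|` satisfy `Good p K` -/
def PGood (p : ℕ) (S : Type) [Group S] : Prop :=
  ∀ (K : Type) [Group K] [Finite K], ⁅(⊤ : Subgroup K), (⊤ : Subgroup K)⁆ = ⊤ →
    Nonempty ((K ⧸ Subgroup.center K) ≃* S) → ¬ p ∣ Nat.card (Subgroup.center K) → Good p K

/-- all nonabelian simple groups of order divisible by `p ^ 2` involved in `G` are `p`-good -/
def InCC (p : ℕ) (G : Type) [Group G] : Prop :=
  ∀ (S : Type) [Group S], IsSimpleGroup S → (¬ ∀ a b : S, a * b = b * a) → Involved S G →
    p ^ 2 ∣ Nat.card S → PGood p S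

/-- a class of finite groups closed under homomorphic images and under groups which map to a group
of the class with central kernel (subgroups, central extensions) -/
structure CClass (CC : ∀ (G : Type) [Group G], Prop) : Prop where
  up : ∀ (X Y : Type) [Group X] [Group Y] [Finite X] [Finite Y] (f : X →* Y),
    f.ker ≤ Subgroup.center X → CC Y → CC X
  down : ∀ (X Y : Type) [Group X] [Group Y] [Finite X] [Finite Y] (f : X →* Y),
    Function.Surjective f → CC X → CC Y

/-- `X` is smaller than `G` -/
def Smaller (X G : Type) [Group X] [Group G] : Prop :=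
  (Subgroup.center X).index < (Subgroup.center G).index ∨
    ((Subgroup.center X).index ≤ (Subgroup.center G).index ∧ Nat.card X < Nat.card G)

/-- The class of groups to which Q1 is reduced. -/
structure Core (p : ℕ) (G : Type) [Group G] : Prop where
  dvd_card : p ∣ Nat.card G
  opcore : ∀ K : Subgroup G, K.Normal → IsPGroup p K → K = ⊥
  cyclic : IsCyclic (Subgroup.center G)
  coprime : ¬ p ∣ Nat.card (Subgroup.center G)
  abelian : ∀ A : Subgroup G, A.Normal → IsMulCommutative A → A ≤ Subgroup.center G
  supplement : ∀ M : Subgroup G, M.Normal → ¬ M ≤ Subgroup.center G → ∀ P : Sylow p G,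
    M ⊔ Subgroup.normalizer (P : Set G) = ⊤

/-- built from finitely many abelian groups and groups of order not divisible by `p ^ 2` by group
extensions: equivalently, no nonabelian composition factor has order divisible by `p ^ 2` -/
inductive Ser (p : ℕ) : (G : Type) → [Group G] → Prop
  | triv (G : Type) [Group G] [Subsingleton G] : Ser p G
  | ext (G : Type) [Group G] (N : Subgroup G) [N.Normal]
      (hN : Ser p N) (hQ : (∀ a b : G ⧸ N, a * b = b * a) ∨ ¬ p ^ 2 ∣ Nat.card (G ⧸ N)) : Ser p G

end Pool.Agent.Helper24.S7
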