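import Pool.Agent.Helper24.S7.Defs

/-!
# Closure properties of the class (module S7-01)

`involved_up`: `f : X → Y` with central kernel, `S` nonabelian simple involved in `X`, `e : H/L ≃ S`. `H ∩ ker f` is central in `H`, its image in `H/L ≃ S` is a central subgroup of a nonabelian simple group, hence trivial, so
`H ∩ ker f ≤ L`. Then `S ≃ H/L ≃ f(H)/f(L)`: section of `Y` (the map `H → f(H)/f(L)` is surjective with kernel `L (H ∩ ker f) = L`).
`involved_down`: `f : X → Y` surjective, `S ≃ H/L` with `H ≤ Y`: `S ≃ f⁻¹(H)/f⁻¹(L)`.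
`inCC_class`: immediate.
`ser_inCC`: let `S` be nonabelian simple, involved in `G`, `p ^ 2 ∣ |S|`. By induction on `Ser p G` we derive a contradiction, even `False`: prove `∀ G, Ser p G → Finite G → ∀ S nonabelian simple, Involved S G → ¬ p ^ 2 ∣ |S|`. `triv`: `S` would be trivial
(abelian). `ext`: `S ≃ H/L`, `N` normal in `G`. `(H ∩ N) L` is normal in `H` and contains `L`, so (simplicity of `H/L`) it is `L` or `H`. If it is `H`, then `S ≃ H/L ≃ (H ∩ N)/(L ∩ N)` is involved in `N`: induction. If it is `L`, then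
`H ∩ N ≤ L`, and `S ≃ HN/LN` is involved in `G/N` (image of `H` modulo image of `L`). If `G/N` is abelian then `S` is abelian, contradiction. Otherwise `|S|` divides `|G/N|` (Lagrange for sections) and `p ^ 2` does not divide `|G/N|`.
-/

namespace Pool.Agent.Helper24.S7

open Pool.Agent.Helper42.INC Pool.Agent.Helper7.MK

private lemma center_bot {S : Type} [Group S] (hS : IsSimpleGroup S) (hn : ¬ ∀ a b : S, a * b = b * a) :
    Subgroup.center S = ⊥ := by
  rcases hS.eq_bot_or_eq_top_of_normal (Subgroup.center S) inferInstance with h | h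
  · exact h
  · exfalso
    apply hn
    intro a b
    have hb : b ∈ Subgroup.center S := by rw [h]; exact Subgroup.mem_top b
    exact Subgroup.mem_center_iff.1 hb a

private lemma lift_range {H Y S : Type} [Group H] [Group Y] [Group S] (ψ : H →* Y) (φ : H →* S)
    (hφ : Function.Surjective φ) (hker : ψ.rangeRestrict.ker ≤ φ.ker) :
    ∃ g : ψ.range →* S, Function.Surjective g := by
  have h1 : Function.Surjective ψ.rangeRestrict := ψ.rangeRestrict_surjective
  refine ⟨ψ.rangeRestrict.liftOfSurjective h1 ⟨φ, hker⟩, fun s => ?_⟩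
  obtain ⟨x, rfl⟩ := hφ s
  exact ⟨ψ.rangeRestrict x, MonoidHom.liftOfRightInverse_comp_apply _ _ (Function.rightInverse_surjInv h1) ⟨φ, hker⟩ x⟩

theorem involved_up {X Y S : Type} [Group X] [Group Y] [Group S] (f : X →* Y)
    (hf : f.ker ≤ Subgroup.center X) (hS : IsSimpleGroup S) (hn : ¬ ∀ a b : S, a * b = b * a)
    (h : Involved S X) : Involved S Y := by
  obtain ⟨H, L, hL, ⟨e⟩⟩ := h
  haveI := hL
  let φ : H →* S := e.toMonoidHom.comp (QuotientGroup.mk' L)
  have hφ : Function.Surjective φ := e.surjective.comp (QuotientGroup.mk'_surjective L)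
  let ψ : H →* Y := f.comp H.subtype
  have hker : ψ.rangeRestrict.ker ≤ φ.ker := by
    intro x hx
    rw [MonoidHom.mem_ker] at hx ⊢
    have h1 : f (x : X) = 1 := congrArg Subtype.val hx
    have h2 : (x : X) ∈ Subgroup.center X := hf h1
    rw [Subgroup.mem_center_iff] at h2
    have h3 : φ x ∈ Subgroup.center S := by
      rw [Subgroup.mem_center_iff]
      intro s
      obtain ⟨y, rfl⟩ := hφ s
      rw [← map_mul, ← map_mul]
      congr 1
      exact Subtype.ext (h2 y)
    rwa [center_bot hS hn, Subgroup.mem_bot] at h3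
  obtain ⟨g, hg⟩ := lift_range ψ φ hφ hker
  exact ⟨ψ.range, g.ker, inferInstance, ⟨QuotientGroup.quotientKerEquivOfSurjective g hg⟩⟩

theorem involved_down {X Y S : Type} [Group X] [Group Y] [Group S] (f : X →* Y)
    (hf : Function.Surjective f) (h : Involved S Y) : Involved S X := by
  obtain ⟨H, L, hL, ⟨e⟩⟩ := h
  haveI := hL
  let φ : H.comap f →* S := (e.toMonoidHom.comp (QuotientGroup.mk' L)).comp (f.subgroupComap H)
  have hφ : Function.Surjective φ := by
    intro s
    obtain ⟨y, hy⟩ := (e.surjective.comp (QuotientGroup.mk'_surjective L)) s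
    obtain ⟨x, hx⟩ := hf (y : Y)
    have hx2 : x ∈ H.comap f := by
      rw [Subgroup.mem_comap, hx]
      exact y.2
    refine ⟨⟨x, hx2⟩, ?_⟩
    have h1 : f.subgroupComap H ⟨x, hx2⟩ = y := Subtype.ext hx
    change (e.toMonoidHom.comp (QuotientGroup.mk' L)) (f.subgroupComap H ⟨x, hx2⟩) = s
    rw [h1]
    exact hy
  exact ⟨H.comap f, φ.ker, inferInstance, ⟨QuotientGroup.quotientKerEquivOfSurjective φ hφ⟩⟩

theorem involved_self_quot {G : Type} [Group G] (H : Subgroup G) (L : Subgroup H) [L.Normal] :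
    Involved (H ⧸ L) G := ⟨H, L, inferInstance, ⟨MulEquiv.refl _⟩⟩

theorem inCC_class (p : ℕ) : CClass (fun G [Group G] => InCC p G) := by
  refine ⟨?_, ?_⟩
  · intro X Y _ _ _ _ f hf hY S _ hS hn hinv hp
    exact hY S hS hn (involved_up f hf hS hn hinv) hp
  · intro X Y _ _ _ _ f hf hX S _ hS hn hinv hp
    exact hX S hS hn (involved_down f hf hinv) hp

private lemma ser_aux (p : ℕ) (G : Type) [Group G] (h : Ser p G) : Finite G →
    ∀ (S : Type) [Group S], IsSimpleGroup S → (¬ ∀ a b : S, a * b = b * a) → Involved S G →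
      ¬ p ^ 2 ∣ Nat.card S := by
  induction h with
  | triv G =>
    intro _ S _ hS hn hinv _
    obtain ⟨H, L, hL, ⟨e⟩⟩ := hinv
    haveI := hL
    apply hn
    intro a b
    obtain ⟨x, rfl⟩ := e.surjective a
    obtain ⟨y, rfl⟩ := e.surjective b
    obtain ⟨x, rfl⟩ := QuotientGroup.mk'_surjective L x
    obtain ⟨y, rfl⟩ := QuotientGroup.mk'_surjective L y
    have hxy : x = y := Subsingleton.elim x y
    rw [hxy]
  | ext G N hN hQ ih =>
    intro hfin S _ hS hn hinv hp
    obtain ⟨H, L, hL, ⟨e⟩⟩ := hinv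
    haveI := hL
    haveI := hfin
    let φ : H →* S := e.toMonoidHom.comp (QuotientGroup.mk' L)
    have hφ : Function.Surjective φ := e.surjective.comp (QuotientGroup.mk'_surjective L)
    have hnorm : ((N.subgroupOf H).map φ).Normal := Subgroup.Normal.map inferInstance φ hφ
    rcases hS.eq_bot_or_eq_top_of_normal _ hnorm with hb | ht
    · let ψ : H →* G ⧸ N := (QuotientGroup.mk' N).comp H.subtype
      have hker : ψ.rangeRestrict.ker ≤ φ.ker := by
        intro x hx
        rw [MonoidHom.mem_ker] at hx ⊢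
        have h1 : (QuotientGroup.mk' N) (x : G) = 1 := congrArg Subtype.val hx
        have h2 : (x : G) ∈ N := (QuotientGroup.eq_one_iff (x : G)).1 h1
        have h3 : φ x ∈ (N.subgroupOf H).map φ := Subgroup.mem_map_of_mem φ (Subgroup.mem_subgroupOf.2 h2)
        rwa [hb, Subgroup.mem_bot] at h3
      obtain ⟨g, hg⟩ := lift_range ψ φ hφ hker
      rcases hQ with hQ | hQ
      · apply hn
        intro a b
        obtain ⟨x, rfl⟩ := hg a
        obtain ⟨y, rfl⟩ := hg b
        rw [← map_mul, ← map_mul]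
        congr 1
        exact Subtype.ext (hQ x y)
      · apply hQ
        have h1 : Nat.card S ∣ Nat.card ψ.range := Subgroup.card_dvd_of_surjective g hg
        exact hp.trans (h1.trans (Subgroup.card_subgroup_dvd_card _))
    · let θ : H.subgroupOf N →* H := (N.subtype.comp (H.subgroupOf N).subtype).codRestrict H (fun x => x.2)
      have hθ : Function.Surjective (φ.comp θ) := by
        intro s
        have hs : s ∈ (N.subgroupOf H).map φ := by rw [ht]; exact Subgroup.mem_top s
        obtain ⟨x, hx, rfl⟩ := hs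
        have hxN : (x : G) ∈ N := Subgroup.mem_subgroupOf.1 hx
        exact ⟨⟨⟨x, hxN⟩, Subgroup.mem_subgroupOf.2 x.2⟩, rfl⟩
      exact ih inferInstance S hS hn
        ⟨H.subgroupOf N, (φ.comp θ).ker, inferInstance, ⟨QuotientGroup.quotientKerEquivOfSurjective (φ.comp θ) hθ⟩⟩ hp

theorem ser_inCC (p : ℕ) (G : Type) [Group G] [Finite G] (h : Ser p G) : InCC p G := by
  intro S _ hS hn hinv hp
  exact absurd hp (ser_aux p G h inferInstance S hS hn hinv)

end Pool.Agent.Helper24.S7
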